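import Mathlib

set_option autoImplicit false

/-!
# Independent sets of the cube with nearly equal even and odd parts

For a set `X` of pairwise nonadjacent vertices of the `(k+1)`-cube with indicator function `f`, let
`A` be the mean of `f` and `b` the mean of `f` with the signs `(-1)^|x|`. Then
`A + (1 - 4 b²) / (2 √(2 k + 1)) ≤ 1/2`.
-/

namespace Pool.Agent.H56.HJ

open Finset

/-- the vertices of the `k`-cube -/
def Cube : ℕ → Type
  | 0 => Unit
  | k + 1 => Cube k × Bool

instance instFintypeCube : (k : ℕ) → Fintype (Cube k)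
  | 0 => inferInstanceAs (Fintype Unit)
  | k + 1 => @instFintypeProd (Cube k) Bool (instFintypeCube k) inferInstance

/-- `y` is obtained from `x` by changing one coordinate from `false` to `true` -/
def Up : (k : ℕ) → Cube k → Cube k → Prop
  | 0, _, _ => False
  | k + 1, x, y => (Up k x.1 y.1 ∧ x.2 = y.2) ∨ (x.1 = y.1 ∧ x.2 = false ∧ y.2 = true)

/-- the sign `(-1)^|x|` -/
def sgn : (k : ℕ) → Cube k → ℝ
  | 0, _ => 1
  | k + 1, x => sgn k x.1 * (if x.2 then -1 else 1)

lemma sum_cube (k : ℕ) (f : Cube (k + 1) → ℝ) :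
    ∑ x, f x = ∑ x : Cube k, (f (x, false) + f (x, true)) := by
  have h : ∑ x : Cube (k + 1), f x = ∑ x : Cube k × Bool, f x := rfl
  rw [h, Fintype.sum_prod_type]
  refine sum_congr rfl fun x _ => ?_
  rw [Fintype.sum_bool, add_comm]

lemma card_cube (k : ℕ) : Fintype.card (Cube k) = 2 ^ k := by
  induction k with
  | zero => rfl
  | succ k ih =>
    have h : Fintype.card (Cube (k + 1)) = Fintype.card (Cube k × Bool) := rfl
    rw [h, Fintype.card_prod, ih, Fintype.card_bool, pow_succ]

lemma sgn_abs (k : ℕ) (x : Cube k) : |sgn k x| = 1 := by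
  induction k with
  | zero => simp [sgn]
  | succ k ih =>
    change |sgn k x.1 * (if x.2 then -1 else 1)| = 1
    rw [abs_mul, ih]
    split_ifs <;> simp

lemma sum_sgn (k : ℕ) : ∑ x, sgn (k + 1) x = 0 := by
  rw [sum_cube]
  refine sum_eq_zero fun x _ => ?_
  change sgn k x * (if false = true then -1 else 1) + sgn k x * (if true = true then -1 else 1) = 0
  simp

/-- the mean -/
noncomputable def mA (k : ℕ) (f : Cube k → ℝ) : ℝ := (∑ x, f x) / 2 ^ k

/-- the signed mean -/
noncomputable def mB (k : ℕ) (f : Cube k → ℝ) : ℝ := (∑ x, sgn k x * f x) / 2 ^ k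

lemma mA_succ (k : ℕ) (f : Cube (k + 1) → ℝ) :
    mA (k + 1) f = (mA k (fun x => f (x, false)) + mA k (fun x => f (x, true))) / 2 := by
  unfold mA
  rw [sum_cube, sum_add_distrib, pow_succ]
  field_simp

lemma mB_succ (k : ℕ) (f : Cube (k + 1) → ℝ) :
    mB (k + 1) f = (mB k (fun x => f (x, false)) - mB k (fun x => f (x, true))) / 2 := by
  unfold mB
  rw [sum_cube, pow_succ]
  have h : ∀ x : Cube k, sgn (k + 1) (x, false) * f (x, false) + sgn (k + 1) (x, true) * f (x, true)
      = sgn k x * f (x, false) - sgn k x * f (x, true) := by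
    intro x
    change (sgn k x * (if false = true then -1 else 1)) * f (x, false)
      + (sgn k x * (if true = true then -1 else 1)) * f (x, true) = _
    simp
    ring
  rw [sum_congr rfl fun x _ => h x, sum_sub_distrib]
  field_simp

lemma mA_add (k : ℕ) (f g : Cube k → ℝ) : mA k f + mA k g = mA k (fun x => f x + g x) := by
  unfold mA
  rw [sum_add_distrib, add_div]

lemma mB_add (k : ℕ) (f g : Cube k → ℝ) : mB k f + mB k g = mB k (fun x => f x + g x) := by
  unfold mB
  rw [← add_div, ← sum_add_distrib]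
  congr 1
  refine sum_congr rfl fun x _ => ?_
  ring

/-- a function with values at most `1` on a cube of positive dimension -/
lemma mA_abs_mB (k : ℕ) (g : Cube (k + 1) → ℝ) (h1 : ∀ x, g x ≤ 1) :
    mA (k + 1) g + |mB (k + 1) g| ≤ 1 := by
  have h2 : (0 : ℝ) < 2 ^ (k + 1) := by positivity
  have key : ∀ e : ℝ, |e| = 1 → ∑ x, g x + e * ∑ x, sgn (k + 1) x * g x ≤ 2 ^ (k + 1) := by
    intro e he
    have h3 : ∑ x, g x + e * ∑ x, sgn (k + 1) x * g x
        = ∑ x, (1 + e * sgn (k + 1) x) * g x := by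
      rw [mul_sum, ← sum_add_distrib]
      refine sum_congr rfl fun x _ => ?_
      ring
    have h4 : ∑ x, (1 + e * sgn (k + 1) x) * g x ≤ ∑ x, (1 + e * sgn (k + 1) x) := by
      refine sum_le_sum fun x _ => ?_
      have h5 : 0 ≤ 1 + e * sgn (k + 1) x := by
        have h6 : |e * sgn (k + 1) x| = 1 := by rw [abs_mul, he, sgn_abs, mul_one]
        have := neg_abs_le (e * sgn (k + 1) x)
        linarith
      calc (1 + e * sgn (k + 1) x) * g x ≤ (1 + e * sgn (k + 1) x) * 1 :=
            mul_le_mul_of_nonneg_left (h1 x) h5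
        _ = _ := mul_one _
    have h7 : ∑ x : Cube (k + 1), (1 + e * sgn (k + 1) x) = 2 ^ (k + 1) := by
      rw [sum_add_distrib, ← mul_sum, sum_sgn, mul_zero, add_zero, sum_const, card_univ,
        card_cube]
      simp
    rw [h3]
    linarith
  unfold mA mB
  rw [abs_div, abs_of_pos h2, ← add_div, div_le_one h2]
  rcases abs_cases (∑ x, sgn (k + 1) x * g x) with ⟨h, -⟩ | ⟨h, -⟩
  · rw [h]
    have := key 1 (by simp)
    linarith
  · rw [h]
    have := key (-1) (by simp)
    linarith

lemma mB_abs_le (k : ℕ) (g : Cube k → ℝ) (h0 : ∀ x, 0 ≤ g x) : |mB k g| ≤ mA k g := by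
  have h2 : (0 : ℝ) < 2 ^ k := by positivity
  unfold mA mB
  rw [abs_div, abs_of_pos h2]
  refine div_le_div_of_nonneg_right ?_ h2.le
  refine (abs_sum_le_sum_abs _ _).trans (sum_le_sum fun x _ => ?_)
  rw [abs_mul, sgn_abs, one_mul, abs_of_nonneg (h0 x)]

/-- **Isoperimetric inequality.** -/
theorem iso (k : ℕ) (f : Cube (k + 1) → ℝ) (h01 : ∀ x, f x = 0 ∨ f x = 1)
    (hind : ∀ x y, Up (k + 1) x y → f x = 0 ∨ f y = 0) :
    mA (k + 1) f + (1 - 4 * mB (k + 1) f ^ 2) / (2 * Real.sqrt (2 * k + 1)) ≤ 1 / 2 := by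
  induction k with
  | zero =>
    have hs : Real.sqrt (2 * ((0 : ℕ) : ℝ) + 1) = 1 := by simp
    rw [hs, mA_succ, mB_succ]
    have e : ∀ g : Cube 0 → ℝ, mA 0 g = g () := by
      intro g
      unfold mA
      have : ∑ x : Cube 0, g x = g () := by
        have h : ∑ x : Cube 0, g x = ∑ x : Unit, g x := rfl
        rw [h]
        simp
      rw [this]
      simp
    have e' : ∀ g : Cube 0 → ℝ, mB 0 g = g () := by
      intro g
      unfold mB
      have : ∑ x : Cube 0, sgn 0 x * g x = g () := by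
        have h : ∑ x : Cube 0, sgn 0 x * g x = ∑ x : Unit, sgn 0 x * g x := rfl
        rw [h]
        simp [sgn]
      rw [this]
      simp
    rw [e, e, e', e']
    have hU : Up 1 ((), false) ((), true) := Or.inr ⟨rfl, rfl, rfl⟩
    rcases hind _ _ hU with h | h <;> rw [h]
    · rcases h01 ((), true) with h' | h' <;> rw [h'] <;> norm_num
    · rcases h01 ((), false) with h' | h' <;> rw [h'] <;> norm_num
  | succ k ih =>
    set f0 : Cube (k + 1) → ℝ := fun x => f (x, false) with hf0
    set f1 : Cube (k + 1) → ℝ := fun x => f (x, true) with hf1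
    have i0 := ih f0 (fun x => h01 _) fun x y hxy => hind (x, false) (y, false) (Or.inl ⟨hxy, rfl⟩)
    have i1 := ih f1 (fun x => h01 _) fun x y hxy => hind (x, true) (y, true) (Or.inl ⟨hxy, rfl⟩)
    have hle : ∀ x, f0 x + f1 x ≤ 1 := by
      intro x
      rcases hind (x, false) (x, true) (Or.inr ⟨rfl, rfl, rfl⟩) with h | h
      · rw [hf0, hf1]
        simp only
        rw [h]
        rcases h01 (x, true) with h' | h' <;> rw [h'] <;> norm_num
      · rw [hf0, hf1]
        simp only
        rw [h]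
        rcases h01 (x, false) with h' | h' <;> rw [h'] <;> norm_num
    have hσ := mA_abs_mB k (fun x => f0 x + f1 x) hle
    rw [← mA_add, ← mB_add] at hσ
    have hb := mB_abs_le (k + 1 + 1) f (fun x => by rcases h01 x with h | h <;> rw [h]; norm_num)
    rw [mA_succ (k + 1), mB_succ (k + 1)] at *
    set A0 := mA (k + 1) f0
    set A1 := mA (k + 1) f1
    set b0 := mB (k + 1) f0
    set b1 := mB (k + 1) f1
    have hk : (0 : ℝ) ≤ k := Nat.cast_nonneg k
    set r := Real.sqrt (2 * k + 1) with hr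
    have hr2 : r ^ 2 = 2 * k + 1 := Real.sq_sqrt (by positivity)
    have hr0 : 0 < r := Real.sqrt_pos.2 (by positivity)
    set r' := Real.sqrt (2 * ((k + 1 : ℕ) : ℝ) + 1) with hr'
    have hr'2 : r' ^ 2 = 2 * k + 3 := by
      rw [hr', Real.sq_sqrt (by positivity)]
      push_cast
      ring
    have hr'0 : 0 < r' := Real.sqrt_pos.2 (by positivity)
    -- the recursion for the constants
    have hrec : r * r' ≤ r' ^ 2 - 1 := by
      have h1 : (r * r') ^ 2 ≤ (r' ^ 2 - 1) ^ 2 := by
        rw [mul_pow, hr2, hr'2]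
        nlinarith
      exact abs_le_of_sq_le_sq' h1 (by rw [hr'2]; linarith) |>.2
    set y := 1 - 4 * ((b0 - b1) / 2) ^ 2 with hy
    set σ := b0 + b1 with hσd
    have hA : (A0 + A1) / 2 ≤ 1 / 2 - |σ| / 2 := by linarith
    have hy1 : y ≤ 1 := by
      rw [hy]
      nlinarith [sq_nonneg ((b0 - b1) / 2)]
    have hy0 : 0 ≤ y := by
      have h1 : |(b0 - b1) / 2| ≤ 1 / 2 := by
        have := abs_nonneg σ
        linarith
      have h2 : ((b0 - b1) / 2) ^ 2 ≤ (1 / 2) ^ 2 := sq_le_sq' (abs_le.1 h1).1 (abs_le.1 h1).2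
      rw [hy]
      linarith
    have hB : (A0 + A1) / 2 ≤ 1 / 2 - (y - σ ^ 2) / (2 * r) := by
      have e : (1 - 4 * b0 ^ 2) / (2 * r) + (1 - 4 * b1 ^ 2) / (2 * r)
          = 2 * ((y - σ ^ 2) / (2 * r)) := by
        rw [hy, hσd]
        field_simp
        ring
      linarith
    rcases le_or_gt (y / r') |σ| with hc | hc
    · have e : y / (2 * r') = y / r' / 2 := by
        rw [div_div, mul_comm]
      rw [e]
      linarith
    · have h1 : σ ^ 2 ≤ y / r' ^ 2 := by
        have h2 : σ ^ 2 = |σ| ^ 2 := (sq_abs σ).symm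
        have h3 : |σ| ^ 2 ≤ (y / r') ^ 2 := pow_le_pow_left₀ (abs_nonneg _) hc.le 2
        rw [h2]
        refine h3.trans ?_
        rw [div_pow]
        refine div_le_div_of_nonneg_right ?_ (by positivity)
        nlinarith
      have h4 : y / (2 * r') ≤ (y - σ ^ 2) / (2 * r) := by
        have h5 : (y - y / r' ^ 2) / (2 * r) ≤ (y - σ ^ 2) / (2 * r) :=
          div_le_div_of_nonneg_right (by linarith) (by positivity)
        refine le_trans ?_ h5
        have h6 : (y - y / r' ^ 2) / (2 * r) = y * (r' ^ 2 - 1) / (2 * r * r' ^ 2) := by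
          field_simp
        rw [h6, div_le_div_iff₀ (by positivity) (by positivity)]
        have h7 : y * (r * r') ≤ y * (r' ^ 2 - 1) := mul_le_mul_of_nonneg_left hrec hy0
        nlinarith
      linarith

end Pool.Agent.H56.HJ
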