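import Mathlib
import Pool.Graph.R_seed8.TH7.DH.Ind

set_option autoImplicit false

/-!
# Abstract planted kernels

A positive semidefinite symmetric kernel on the patterns, which depends only on the part of the
patterns over the indices involved in the difference. The induction is that of
`Pool.Agent.TH7.DH.Ind` (starting files), where it is done for the limit kernels of functions;
here it is needed for their alternating combinations.
-/

namespace Pool.Agent.H56.HJ

open Finset Filter Topology Pool.Agent.TH7.DH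

/-- abstract planted kernels -/
structure PKer (d : ℕ) where
  K : (ι : Type) → [Fintype ι] → ((Fin d → ι) → Prop) → ((Fin d → ι) → Prop) → ℝ
  B : ℝ
  bdd : ∀ (ι : Type) [Fintype ι] (P Q : (Fin d → ι) → Prop), |K ι P Q| ≤ B
  symm : ∀ (ι : Type) [Fintype ι] (P Q : (Fin d → ι) → Prop), K ι P Q = K ι Q P
  loc : ∀ {ι ι' : Type} [Fintype ι] [Fintype ι'] (g : ι' ↪ ι) (P Q : (Fin d → ι) → Prop),
    (∀ c : Fin d → ι, (∃ t, c t ∉ Set.range g) → (P c ↔ Q c)) →
    K ι P Q = K ι' (fun c => P (fun t => g (c t))) (fun c => Q (fun t => g (c t)))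
  psd : ∀ (ι : Type) [Fintype ι] (X : Type) [Fintype X] (c : X → ℝ) (P : X → (Fin d → ι) → Prop),
    0 ≤ ∑ x, ∑ y, c x * c y * K ι (P x) (P y)

variable {d : ℕ} (S : PKer d)

lemma PKer.congr {ι : Type} [Fintype ι] {P Q P' Q' : (Fin d → ι) → Prop}
    (hP : ∀ c, P c ↔ P' c) (hQ : ∀ c, Q c ↔ Q' c) : S.K ι P Q = S.K ι P' Q' := by
  have h1 : P = P' := funext fun c => propext (hP c)
  have h2 : Q = Q' := funext fun c => propext (hQ c)
  rw [h1, h2]

/-- the value of the kernel at two equal patterns -/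
noncomputable def PKer.v : ℝ := S.K Empty (fun _ => True) (fun _ => True)

lemma PKer.same (ι : Type) [Fintype ι] (hd : 1 ≤ d) (P Q : (Fin d → ι) → Prop)
    (h : ∀ c, P c ↔ Q c) : S.K ι P Q = S.v := by
  rw [S.loc (ι' := Empty) ⟨Empty.elim, fun x => x.elim⟩ P Q fun c _ => h c]
  refine S.congr ?_ ?_ <;>
  · intro c
    exact (c ⟨0, hd⟩).elim

lemma PKer.v_nonneg : 0 ≤ S.v := by
  have h := S.psd Empty Unit (fun _ => 1) (fun _ _ => True)
  simpa [PKer.v] using h

/-- the special case of positivity used in the induction -/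
theorem PKer.psd' (ι : Type) [Fintype ι] (p w₀ : (Fin d → ι) → Prop)
    (w : ℕ → (Fin d → ι) → Prop) (n : ℕ) (t c' : ℝ) :
    0 ≤ t ^ 2 * S.K ι p p + c' ^ 2 * S.K ι w₀ w₀
      + (∑ i ∈ range (n + 1), S.K ι (w i) (w i)
        + 2 * ∑ j ∈ range (n + 1), ∑ i ∈ range j, S.K ι (w i) (w j)) / ((n : ℝ) + 1) ^ 2
      - 2 * c' / (n + 1) * ∑ i ∈ range (n + 1), S.K ι w₀ (w i)
      + 2 * t * c' * S.K ι p w₀
      - 2 * t / (n + 1) * ∑ i ∈ range (n + 1), S.K ι p (w i) := by
  -- the double sum
  have hsq : ∀ (a : ℕ → ℕ → ℝ), (∀ i j, a i j = a j i) → ∀ m : ℕ,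
      ∑ i ∈ range m, ∑ j ∈ range m, a i j
        = ∑ i ∈ range m, a i i + 2 * ∑ j ∈ range m, ∑ i ∈ range j, a i j := by
    intro a ha m
    induction m with
    | zero => simp
    | succ m ih =>
      rw [sum_range_succ, sum_range_succ (fun j => a m j), sum_range_succ (fun i => a i i),
        sum_range_succ (fun j => ∑ i ∈ range j, a i j)]
      have e : ∑ i ∈ range m, ∑ j ∈ range (m + 1), a i j
          = ∑ i ∈ range m, ∑ j ∈ range m, a i j + ∑ i ∈ range m, a i m := by
        rw [← sum_add_distrib]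
        exact sum_congr rfl fun i _ => sum_range_succ _ _
      have e2 : ∑ j ∈ range m, a m j = ∑ i ∈ range m, a i m := sum_congr rfl fun i _ => ha m i
      rw [e, e2, ih]
      ring
  set x : ℝ := 1 / ((n : ℝ) + 1) with hx
  have h := S.psd ι (Option (Option (Fin (n + 1))))
    (fun o => match o with
      | none => -t
      | some none => -c'
      | some (some _) => x)
    (fun o => match o with
      | none => p
      | some none => w₀
      | some (some i) => w i)
  simp only [Fintype.sum_option] at h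
  have f1 : ∀ F : ℕ → ℝ, ∑ i : Fin (n + 1), F i = ∑ i ∈ range (n + 1), F i := fun F =>
    Fin.sum_univ_eq_sum_range F (n + 1)
  have g1 : ∑ i : Fin (n + 1), -t * x * S.K ι p (w i)
      = -t * x * ∑ i ∈ range (n + 1), S.K ι p (w i) := by
    rw [← f1 (fun i => S.K ι p (w i)), mul_sum]
  have g2 : ∑ i : Fin (n + 1), -c' * x * S.K ι w₀ (w i)
      = -c' * x * ∑ i ∈ range (n + 1), S.K ι w₀ (w i) := by
    rw [← f1 (fun i => S.K ι w₀ (w i)), mul_sum]
  have g3 : ∑ i : Fin (n + 1), (x * -t * S.K ι (w i) p + (x * -c' * S.K ι (w i) w₀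
      + ∑ j : Fin (n + 1), x * x * S.K ι (w i) (w j)))
      = -t * x * ∑ i ∈ range (n + 1), S.K ι p (w i) + (-c' * x * ∑ i ∈ range (n + 1), S.K ι w₀ (w i)
        + x ^ 2 * ∑ i ∈ range (n + 1), ∑ j ∈ range (n + 1), S.K ι (w i) (w j)) := by
    rw [sum_add_distrib, sum_add_distrib]
    congr 1
    · rw [← f1 (fun i => S.K ι p (w i)), mul_sum]
      refine sum_congr rfl fun i _ => ?_
      rw [S.symm ι (w i) p]
      ring
    congr 1
    · rw [← f1 (fun i => S.K ι w₀ (w i)), mul_sum]
      refine sum_congr rfl fun i _ => ?_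
      rw [S.symm ι (w i) w₀]
      ring
    · rw [← f1 (fun i => ∑ j ∈ range (n + 1), S.K ι (w i) (w j)), mul_sum]
      refine sum_congr rfl fun i _ => ?_
      rw [← f1 (fun j => S.K ι (w i) (w j)), mul_sum]
      refine sum_congr rfl fun j _ => ?_
      ring
  rw [g1, g2, g3, hsq (fun i j => S.K ι (w i) (w j)) (fun i j => S.symm ι _ _)] at h
  rw [S.symm ι w₀ p] at h
  refine h.trans (le_of_eq ?_)
  rw [hx]
  have hn : (n : ℝ) + 1 ≠ 0 := by positivity
  field_simp
  ring

/-- the kernel between the pattern of the cells not using all labels `< k` and the full pattern -/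
noncomputable def PKer.Φ (S : PKer d) (k : ℕ) (ι : Type) [Fintype ι] (ℓ : ι → ℕ) : ℝ :=
  S.K ι (fun c => ¬ Hit k ℓ c) (fun _ => True)

/-- the function `κ` -/
noncomputable def PKer.κ (S : PKer d) (k : ℕ) (α : Type) [Fintype α] (ℓ : α → ℕ) (s : ℕ) : ℝ :=
  S.Φ k (α ⊕ Fin s) (Sum.elim ℓ (fun _ => k))

lemma PKer.κ_bdd (S : PKer d) (k : ℕ) (α : Type) [Fintype α] (ℓ : α → ℕ) : Bdd (S.κ k α ℓ) :=
  ⟨S.B, fun _ => S.bdd _ _ _⟩

theorem PKer.lemA (S : PKer d) (k : ℕ) (α : Type) [Fintype α] (ℓ : α → ℕ) {s T : ℕ} (h : s ≤ T) :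
    S.K (α ⊕ Fin T) (patP k ℓ T) (patW k ℓ T s) = S.κ k α ℓ s := by
  have hinj : Function.Injective (Sum.map id (Fin.castLE h) : α ⊕ Fin s → α ⊕ Fin T) :=
    Function.injective_id.sumMap (Fin.castLE_injective h)
  rw [S.loc (ι' := α ⊕ Fin s) ⟨Sum.map id (Fin.castLE h), hinj⟩]
  · refine S.congr ?_ ?_
    · intro c
      simp only [patP, Hit, Function.Embedding.coeFn_mk]
      have hl : ∀ x : α ⊕ Fin s, lab k ℓ T (Sum.map id (Fin.castLE h) x)
          = Sum.elim ℓ (fun _ => k) x := by
        rintro (x | x) <;> rfl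
      simp only [hl]
    · intro c
      simp only [patW, Function.Embedding.coeFn_mk, iff_true]
      rintro ⟨-, t, z, hz, hsz⟩
      rcases hct : c t with x | x
      · rw [hct] at hz
        cases hz
      · rw [hct] at hz
        have h1 : Fin.castLE h x = z := Sum.inr_injective hz
        have h2 := congrArg Fin.val h1
        simp only [Fin.val_castLE] at h2
        have := x.2
        omega
  · rintro c ⟨t, ht⟩
    have h1 : ∃ t, ∃ z : Fin T, c t = Sum.inr z ∧ s ≤ z := by
      refine ⟨t, ?_⟩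
      rcases hct : c t with x | x
      · exact (ht ⟨Sum.inl x, by rw [hct]; rfl⟩).elim
      · refine ⟨x, rfl, ?_⟩
        by_contra hlt
        push Not at hlt
        refine ht ⟨Sum.inr ⟨x, hlt⟩, ?_⟩
        rw [hct]
        rfl
    simp only [patP, patW]
    rw [and_iff_left h1]

theorem PKer.lemB (S : PKer d) (k : ℕ) (α : Type) [Fintype α] (ℓ : α → ℕ) (hℓ : ∀ x, ℓ x < k)
    {s a T : ℕ} (h : s + a ≤ T) :
    S.K (α ⊕ Fin T) (patW k ℓ T s) (patW k ℓ T (s + a))
      = S.κ (k + 1) (α ⊕ Fin a) (lab k ℓ a) s := by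
  rw [S.loc (ι' := (α ⊕ Fin a) ⊕ Fin s) ⟨embB h, embB_inj h⟩]
  · refine S.congr ?_ ?_
    · intro c
      simp only [patW, Function.Embedding.coeFn_mk]
      refine not_congr ?_
      constructor
      · rintro ⟨h1, t, z, hz, hsz⟩ i hi
        rcases Nat.lt_succ_iff_lt_or_eq.1 hi with hi | rfl
        · obtain ⟨t, ht⟩ := h1 i hi
          refine ⟨t, ?_⟩
          change lab k ℓ T (embB h (c t)) = i at ht
          rcases hct : c t with (x | x) | x
          · rw [hct] at ht
            exact ht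
          · rw [hct] at ht
            exact ht
          · rw [hct] at ht
            have : i = k := ht.symm
            omega
        · refine ⟨t, ?_⟩
          rcases hct : c t with (x | x) | x
          · rw [hct] at hz
            cases hz
          · rfl
          · rw [hct] at hz
            have h2 : (⟨x, by omega⟩ : Fin T) = z := Sum.inr_injective hz
            have h3 := congrArg Fin.val h2
            simp only at h3
            have := x.2
            omega
      · intro h1
        constructor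
        · intro i hi
          obtain ⟨t, ht⟩ := h1 i (by omega)
          refine ⟨t, ?_⟩
          change lab k ℓ T (embB h (c t)) = i
          rcases hct : c t with (x | x) | x
          · rw [hct] at ht
            exact ht
          · rw [hct] at ht
            exact ht
          · rw [hct] at ht
            have : k + 1 = i := ht
            omega
        · obtain ⟨t, ht⟩ := h1 k (by omega)
          rcases hct : c t with (x | x) | x
          · rw [hct] at ht
            have h2 : ℓ x = k := ht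
            have := hℓ x
            omega
          · refine ⟨t, ⟨s + x, by omega⟩, ?_, ?_⟩
            · rw [hct]
              rfl
            · simp
          · rw [hct] at ht
            have : k + 1 = k := ht
            omega
    · intro c
      simp only [patW, Function.Embedding.coeFn_mk, iff_true]
      rintro ⟨-, t, z, hz, hsz⟩
      rcases hct : c t with (x | x) | x
      · rw [hct] at hz
        cases hz
      · rw [hct] at hz
        have h1 : (⟨s + x, by omega⟩ : Fin T) = z := Sum.inr_injective hz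
        have h2 := congrArg Fin.val h1
        simp only at h2
        have := x.2
        omega
      · rw [hct] at hz
        have h1 : (⟨x, by omega⟩ : Fin T) = z := Sum.inr_injective hz
        have h2 := congrArg Fin.val h1
        simp only at h2
        have := x.2
        omega
  · rintro c ⟨t, ht⟩
    have h1 : ∃ z : Fin T, c t = Sum.inr z ∧ s + a ≤ z := by
      rcases hct : c t with x | x
      · exact (ht ⟨Sum.inl (Sum.inl x), by rw [hct]; rfl⟩).elim
      · refine ⟨x, rfl, ?_⟩
        by_contra hlt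
        push Not at hlt
        by_cases hs : (x : ℕ) < s
        · refine ht ⟨Sum.inr ⟨x, hs⟩, ?_⟩
          rw [hct]
          rfl
        · refine ht ⟨Sum.inl (Sum.inr ⟨x - s, by omega⟩), ?_⟩
          rw [hct]
          simp only [Function.Embedding.coeFn_mk, embB, Sum.inr.injEq]
          apply Fin.ext
          simp only
          omega
    obtain ⟨z, hz, hsz⟩ := h1
    have h2 : ∃ t, ∃ z : Fin T, c t = Sum.inr z ∧ s ≤ z := ⟨t, z, hz, by omega⟩
    have h3 : ∃ t, ∃ z : Fin T, c t = Sum.inr z ∧ s + a ≤ z := ⟨t, z, hz, hsz⟩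
    simp only [patW]
    rw [and_iff_left h2, and_iff_left h3]

theorem PKer.psdκ (S : PKer d) (hd : 1 ≤ d) (k : ℕ) (α : Type) [Fintype α]
    (ℓ : α → ℕ) (hℓ : ∀ x, ℓ x < k) :
    PSD (S.κ k α ℓ) (fun a s => S.κ (k + 1) (α ⊕ Fin a) (lab k ℓ a) s) S.v := by
  intro n r hr y t c'
  set T := y + r n with hT
  have hle : ∀ i ∈ range (n + 1), y + r i ≤ T := by
    intro i hi
    have hi' : i ≤ n := by
      have := mem_range.1 hi
      omega
    rcases Nat.lt_or_eq_of_le hi' with h1 | h1
    · have := hr i n h1 le_rfl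
      omega
    · rw [h1]
  have h0 := S.psd' (α ⊕ Fin T) (patP k ℓ T) (patW k ℓ T 0)
    (fun i => patW k ℓ T (y + r i)) n t c'
  rw [S.same _ hd _ _ fun _ => Iff.rfl, S.same _ hd _ _ fun _ => Iff.rfl] at h0
  have e1 : ∑ i ∈ range (n + 1), S.K (α ⊕ Fin T) (patW k ℓ T (y + r i)) (patW k ℓ T (y + r i))
      = (n + 1) * S.v := by
    rw [sum_congr rfl fun i _ => S.same _ hd _ _ fun _ => Iff.rfl]
    simp
  have e2 : ∑ j ∈ range (n + 1), ∑ i ∈ range j,
      S.K (α ⊕ Fin T) (patW k ℓ T (y + r i)) (patW k ℓ T (y + r j))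
      = ∑ j ∈ range (n + 1), ∑ i ∈ range j,
        S.κ (k + 1) (α ⊕ Fin (r j - r i)) (lab k ℓ (r j - r i)) (y + r i) := by
    refine sum_congr rfl fun j hj => sum_congr rfl fun i hi => ?_
    have hj' : j ≤ n := by
      have := mem_range.1 hj
      omega
    have hij := hr i j (mem_range.1 hi) hj'
    have h1 : y + r j = y + r i + (r j - r i) := by omega
    have h2 := hle j hj
    rw [h1] at h2
    rw [← S.lemB k α ℓ hℓ h2]
    rw [← h1]
  have e3 : ∑ i ∈ range (n + 1), S.K (α ⊕ Fin T) (patW k ℓ T 0) (patW k ℓ T (y + r i))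
      = ∑ i ∈ range (n + 1), S.κ (k + 1) (α ⊕ Fin (y + r i)) (lab k ℓ (y + r i)) 0 := by
    refine sum_congr rfl fun i hi => ?_
    have h1 : 0 + (y + r i) ≤ T := by
      have := hle i hi
      omega
    rw [← S.lemB k α ℓ hℓ h1, Nat.zero_add]
  have e4 : ∑ i ∈ range (n + 1), S.K (α ⊕ Fin T) (patP k ℓ T) (patW k ℓ T (y + r i))
      = ∑ i ∈ range (n + 1), S.κ k α ℓ (y + r i) :=
    sum_congr rfl fun i hi => S.lemA k α ℓ (hle i hi)
  rw [e1, e2, e3, e4, S.lemA k α ℓ (Nat.zero_le T)] at h0
  exact h0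

/-- base case: nothing depends on the number of indices with label `d` -/
theorem PKer.κ_top (S : PKer d) (α : Type) [Fintype α] (ℓ : α → ℕ) (s : ℕ) :
    S.κ d α ℓ s = S.κ d α ℓ 0 := by
  have h : (0 : ℕ) ≤ s := Nat.zero_le s
  have hinj : Function.Injective (Sum.map id (Fin.castLE h) : α ⊕ Fin 0 → α ⊕ Fin s) :=
    Function.injective_id.sumMap (Fin.castLE_injective h)
  unfold PKer.κ PKer.Φ
  rw [S.loc (ι' := α ⊕ Fin 0) ⟨Sum.map id (Fin.castLE h), hinj⟩]
  · refine S.congr ?_ fun _ => Iff.rfl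
    intro c
    simp only [Hit, Function.Embedding.coeFn_mk]
    have hl : ∀ x : α ⊕ Fin 0, (Sum.elim ℓ (fun _ => d) : α ⊕ Fin s → ℕ)
        (Sum.map id (Fin.castLE h) x) = Sum.elim ℓ (fun _ => d) x := by
      rintro (x | x) <;> rfl
    simp only [hl]
  · rintro c ⟨t, ht⟩
    simp only [iff_true]
    intro hit
    have hct : ∃ z, c t = Sum.inr z := by
      rcases hct : c t with x | x
      · exact (ht ⟨Sum.inl x, by rw [hct]; rfl⟩).elim
      · exact ⟨x, rfl⟩
    obtain ⟨z, hz⟩ := hct
    have h1 : ∀ i : Fin d, ∃ t, (Sum.elim ℓ (fun _ => d) : α ⊕ Fin s → ℕ) (c t) = i :=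
      fun i => hit i i.2
    choose f hf using h1
    have hfi : Function.Injective f := by
      intro i j hij
      have h2 := hf i
      have h3 := hf j
      rw [hij, h3] at h2
      exact Fin.ext h2.symm
    obtain ⟨i, hi⟩ := (Finite.injective_iff_surjective.1 hfi) t
    have h2 := hf i
    rw [hi, hz] at h2
    have h3 : d = i := h2
    have := i.2
    omega

theorem PKer.main (S : PKer d) (hd : 1 ≤ d) (j : ℕ) : j ≤ d →
    ∀ (α : Type) [Fintype α] (ℓ : α → ℕ), (∀ x, ℓ x < d - j) →
    |mean (S.κ (d - j) α ℓ) - (1 / 2) ^ j * S.κ (d - j) α ℓ 0| ≤ (1 - (1 / 2) ^ j) * S.v := by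
  induction j with
  | zero =>
    intro _ α _ ℓ _
    have h1 : S.κ (d - 0) α ℓ = fun _ => S.κ (d - 0) α ℓ 0 := by
      funext s
      exact S.κ_top α ℓ s
    rw [h1, mean_const]
    simp
  | succ j ih =>
    intro hj α _ ℓ hℓ
    have hk : d - j = d - (j + 1) + 1 := by omega
    have h1 : (0 : ℝ) ≤ (1 / 2) ^ j := by positivity
    have h2 : ((1 : ℝ) / 2) ^ j ≤ 1 := pow_le_one₀ (by norm_num) (by norm_num)
    have h3 := abs_step (κ := S.κ (d - (j + 1)) α ℓ)
      (G := fun a s => S.κ (d - (j + 1) + 1) (α ⊕ Fin a) (lab (d - (j + 1)) ℓ a) s)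
      (v := S.v) (c := (1 / 2) ^ j) S.v_nonneg h1 h2 (S.κ_bdd _ _ _)
      (fun a => S.κ_bdd _ _ _) ⟨S.B, fun _ => S.bdd _ _ _⟩ (S.psdκ hd _ α ℓ hℓ) ?_
    · rw [pow_succ]
      have e : ((1 : ℝ) / 2) ^ j * (1 / 2) = (1 / 2) ^ j / 2 := by ring
      rw [e]
      exact h3
    · intro a _
      have h4 := ih (by omega) (α ⊕ Fin a) (lab (d - (j + 1)) ℓ a) ?_
      · rw [hk] at h4
        have h5 := (abs_le.1 h4).2
        linarith
      · rintro (x | x)
        · have := hℓ x
          change ℓ x < _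
          omega
        · change d - (j + 1) < _
          omega

/-- Arbitrarily large full cubes are not much more negatively correlated with the empty pattern
than allowed by a bias of a polynomial of degree `d`. -/
theorem PKer.exists_size (S : PKer d) (hd : 1 ≤ d) {ε : ℝ} (hε : 0 < ε) :
    ∃ s : ℕ, 1 ≤ s ∧ -((1 - 2 * (1 / 2) ^ d) * S.v) - ε
      ≤ S.K (Fin s) (fun _ => False) (fun _ => True) := by
  have hm := S.main hd d le_rfl Empty (fun _ => 0) (fun x => x.elim)
  rw [Nat.sub_self] at hm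
  have h0 : S.κ 0 Empty (fun _ => 0) 0 = S.v := by
    refine S.same _ hd _ _ fun c => ?_
    have : IsEmpty (Empty ⊕ Fin 0) := by infer_instance
    exact isEmptyElim (c ⟨0, hd⟩)
  rw [h0] at hm
  have h1 := (abs_le.1 hm).1
  have hb := S.κ_bdd 0 Empty (fun _ => 0)
  have h2 : mean (fun n => (-1) * S.κ 0 Empty (fun _ => 0) n) ≤ (1 - 2 * (1 / 2) ^ d) * S.v := by
    rw [mean_smul _ hb]
    linarith
  obtain ⟨s, hs, hle⟩ := exists_le_of_mean (hb.smul (-1)) h2 hε 1
  refine ⟨s, hs, ?_⟩
  have h3 : S.κ 0 Empty (fun _ => 0) s = S.K (Fin s) (fun _ => False) (fun _ => True) := by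
    unfold PKer.κ PKer.Φ
    rw [S.loc (ι' := Fin s) ⟨Sum.inr, Sum.inr_injective⟩]
    · refine S.congr (fun c => ?_) fun _ => Iff.rfl
      simp [Hit]
    · rintro c ⟨t, ht⟩
      rcases hct : c t with x | x
      · exact x.elim
      · exact (ht ⟨x, by rw [hct]; rfl⟩).elim
  rw [← h3]
  linarith

end Pool.Agent.H56.HJ
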