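import Mathlib
import Pool.Agent.H56.HJ.Iso
import Pool.Agent.H56.HJ.Ker

set_option autoImplicit false

/-!
# Composite kernels

From a kernel `S` and finitely many patterns `R m` over `β` with coefficients `c m` one gets the
kernel `∑ c m c m' S (P ∪ R m) (Q ∪ R m')`.
-/

namespace Pool.Agent.H56.HJ

open Finset Filter Topology Pool.Agent.TH7.DH

variable {d : ℕ}

/-- the union of two patterns over disjoint index sets; no cell with indices in both -/
def glue {ι β : Type} (P : (Fin d → ι) → Prop) (R : (Fin d → β) → Prop)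
    (c : Fin d → ι ⊕ β) : Prop :=
  (∃ e : Fin d → ι, c = (fun t => Sum.inl (e t)) ∧ P e) ∨
    (∃ e : Fin d → β, c = (fun t => Sum.inr (e t)) ∧ R e)

lemma glue_inl {ι β : Type} (hd : 1 ≤ d) (P : (Fin d → ι) → Prop) (R : (Fin d → β) → Prop)
    (e : Fin d → ι) : glue P R (fun t => Sum.inl (e t)) ↔ P e := by
  constructor
  · rintro (⟨e', h, hP⟩ | ⟨e', h, -⟩)
    · have : e = e' := funext fun t => Sum.inl_injective (congrFun h t)
      rwa [this]
    · have := congrFun h ⟨0, hd⟩
      cases this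
  · intro h
    exact Or.inl ⟨e, rfl, h⟩

lemma glue_inr {ι β : Type} (hd : 1 ≤ d) (P : (Fin d → ι) → Prop) (R : (Fin d → β) → Prop)
    (e : Fin d → β) : glue P R (fun t => Sum.inr (e t)) ↔ R e := by
  constructor
  · rintro (⟨e', h, -⟩ | ⟨e', h, hP⟩)
    · have := congrFun h ⟨0, hd⟩
      cases this
    · have : e = e' := funext fun t => Sum.inr_injective (congrFun h t)
      rwa [this]
  · intro h
    exact Or.inr ⟨e, rfl, h⟩

/-- the embedding of `ι' ⊕ β` in `ι ⊕ β` -/
def emb {ι ι' β : Type} (g : ι' ↪ ι) : ι' ⊕ β ↪ ι ⊕ β :=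
  ⟨Sum.map g id, g.injective.sumMap Function.injective_id⟩

lemma glue_emb {ι ι' β : Type} (g : ι' ↪ ι) (P : (Fin d → ι) → Prop)
    (R : (Fin d → β) → Prop) (c : Fin d → ι' ⊕ β) :
    glue P R (fun t => emb g (c t)) ↔ glue (fun c => P (fun t => g (c t))) R c := by
  constructor
  · rintro (⟨e, h, hP⟩ | ⟨e, h, hR⟩)
    · have h1 : ∀ t, ∃ x : ι', c t = Sum.inl x ∧ g x = e t := by
        intro t
        have h2 := congrFun h t
        simp only [emb, Function.Embedding.coeFn_mk] at h2
        rcases hct : c t with x | x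
        · rw [hct] at h2
          exact ⟨x, rfl, Sum.inl_injective h2⟩
        · rw [hct] at h2
          cases h2
      choose e' he' hge using h1
      refine Or.inl ⟨e', funext he', ?_⟩
      have : (fun t => g (e' t)) = e := funext hge
      change P (fun t => g (e' t))
      rwa [this]
    · have h1 : ∀ t, c t = Sum.inr (e t) := by
        intro t
        have h2 := congrFun h t
        simp only [emb, Function.Embedding.coeFn_mk] at h2
        rcases hct : c t with x | x
        · rw [hct] at h2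
          cases h2
        · rw [hct] at h2
          have h3 : x = e t := Sum.inr_injective (show (Sum.inr x : ι ⊕ β) = Sum.inr (e t) from h2)
          rw [← h3]
      exact Or.inr ⟨e, funext h1, hR⟩
  · rintro (⟨e, rfl, hP⟩ | ⟨e, rfl, hR⟩)
    · exact Or.inl ⟨fun t => g (e t), rfl, hP⟩
    · exact Or.inr ⟨e, rfl, hR⟩

/-- the composite kernel -/
noncomputable def PKer.comp (S : PKer d) (β : Type) [Fintype β] (M : Type) [Fintype M]
    (a : M → ℝ) (R : M → (Fin d → β) → Prop) : PKer d where
  K ι _ P Q := ∑ m, ∑ m', a m * a m' * S.K (ι ⊕ β) (glue P (R m)) (glue Q (R m'))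
  B := ∑ m, ∑ m', |a m| * |a m'| * S.B
  bdd ι _ P Q := by
    refine (abs_sum_le_sum_abs _ _).trans (sum_le_sum fun m _ => ?_)
    refine (abs_sum_le_sum_abs _ _).trans (sum_le_sum fun m' _ => ?_)
    rw [abs_mul, abs_mul]
    exact mul_le_mul_of_nonneg_left (S.bdd _ _ _) (by positivity)
  symm ι _ P Q := by
    rw [sum_comm]
    refine sum_congr rfl fun m _ => sum_congr rfl fun m' _ => ?_
    rw [S.symm]
    ring
  loc := by
    intro ι ι' _ _ g P Q h
    refine sum_congr rfl fun m _ => sum_congr rfl fun m' _ => ?_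
    congr 1
    rw [S.loc (emb g)]
    · exact S.congr (glue_emb g P (R m)) (glue_emb g Q (R m'))
    · rintro c ⟨t, ht⟩
      have h1 : ∃ x : ι, c t = Sum.inl x ∧ x ∉ Set.range g := by
        rcases hct : c t with x | x
        · refine ⟨x, rfl, ?_⟩
          rintro ⟨y, hy⟩
          refine ht ⟨Sum.inl y, ?_⟩
          rw [hct, ← hy]
          rfl
        · refine (ht ⟨Sum.inr x, ?_⟩).elim
          rw [hct]
          rfl
      obtain ⟨x, hx, hxg⟩ := h1
      constructor
      · rintro (⟨e, rfl, hP⟩ | ⟨e, rfl, -⟩)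
        · refine Or.inl ⟨e, rfl, (h e ⟨t, ?_⟩).1 hP⟩
          have : e t = x := Sum.inl_injective hx
          rwa [this]
        · cases hx
      · rintro (⟨e, rfl, hP⟩ | ⟨e, rfl, -⟩)
        · refine Or.inl ⟨e, rfl, (h e ⟨t, ?_⟩).2 hP⟩
          have : e t = x := Sum.inl_injective hx
          rwa [this]
        · cases hx
  psd := by
    intro ι _ X _ b P
    have h := S.psd (ι ⊕ β) (X × M) (fun z => b z.1 * a z.2) (fun z => glue (P z.1) (R z.2))
    refine h.trans (le_of_eq ?_)
    rw [Fintype.sum_prod_type]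
    refine sum_congr rfl fun x _ => ?_
    have e1 : ∀ m : M, ∑ z : X × M, b (x, m).1 * a (x, m).2 * (b z.1 * a z.2)
        * S.K (ι ⊕ β) (glue (P (x, m).1) (R (x, m).2)) (glue (P z.1) (R z.2))
        = ∑ y, ∑ m', b x * b y * (a m * a m'
          * S.K (ι ⊕ β) (glue (P x) (R m)) (glue (P y) (R m'))) := by
      intro m
      rw [Fintype.sum_prod_type]
      refine sum_congr rfl fun y _ => sum_congr rfl fun m' _ => ?_
      ring
    rw [sum_congr rfl fun m _ => e1 m, sum_comm]
    refine sum_congr rfl fun y _ => ?_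
    rw [mul_sum]
    refine sum_congr rfl fun m _ => ?_
    rw [mul_sum]

lemma PKer.comp_K (S : PKer d) (β : Type) [Fintype β] (M : Type) [Fintype M]
    (a : M → ℝ) (R : M → (Fin d → β) → Prop) (ι : Type) [Fintype ι] (P Q : (Fin d → ι) → Prop) :
    (S.comp β M a R).K ι P Q
      = ∑ m, ∑ m', a m * a m' * S.K (ι ⊕ β) (glue P (R m)) (glue Q (R m')) := rfl

/-- the quadratic form -/
noncomputable def PKer.quad (S : PKer d) (β : Type) [Fintype β] (M : Type) [Fintype M]
    (a : M → ℝ) (R : M → (Fin d → β) → Prop) : ℝ :=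
  ∑ m, ∑ m', a m * a m' * S.K β (R m) (R m')

lemma PKer.comp_v (S : PKer d) (hd : 1 ≤ d) (β : Type) [Fintype β] (M : Type) [Fintype M]
    (a : M → ℝ) (R : M → (Fin d → β) → Prop) : (S.comp β M a R).v = S.quad β M a R := by
  unfold PKer.v
  rw [PKer.comp_K]
  refine sum_congr rfl fun m _ => sum_congr rfl fun m' _ => ?_
  congr 1
  rw [S.loc (ι' := β) ⟨Sum.inr, Sum.inr_injective⟩]
  · exact S.congr (fun c => glue_inr hd _ _ c) (fun c => glue_inr hd _ _ c)
  · rintro c ⟨t, ht⟩
    rcases hct : c t with x | x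
    · exact x.elim
    · exact (ht ⟨x, by rw [hct]; rfl⟩).elim

end Pool.Agent.H56.HJ
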