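import Mathlib
import Pool.Agent.H56.HJ.Comp

set_option autoImplicit false

/-!
# Cubes of patterns with small alternating sums
-/

namespace Pool.Agent.H56.HJ

open Finset Filter Topology Pool.Agent.TH7.DH

variable {d : ℕ}

/-- `R'` is the union of `R` and a disjoint full cube -/
def Edge {β : Type} (R R' : (Fin d → β) → Prop) : Prop :=
  ∃ γ : Finset β, γ.Nonempty ∧ (∀ c : Fin d → β, (∀ t, c t ∈ γ) → ¬ R c) ∧
    ∀ c, R' c ↔ R c ∨ ∀ t, c t ∈ γ

/-- a cube of patterns, in which adjacent patterns differ by full cubes -/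
def CubeOf (k : ℕ) {β : Type} (R : Cube k → (Fin d → β) → Prop) : Prop :=
  ∀ x y, Up k x y → Edge (R x) (R y)

/-- the weights -/
noncomputable def wt (k : ℕ) (x : Cube k) : ℝ := sgn k x / 2 ^ k

lemma wt_false (k : ℕ) (x : Cube k) : wt (k + 1) (x, false) = wt k x / 2 := by
  unfold wt
  change sgn k x * (if false = true then -1 else 1) / 2 ^ (k + 1) = _
  rw [pow_succ]
  simp
  ring

lemma wt_true (k : ℕ) (x : Cube k) : wt (k + 1) (x, true) = -(wt k x / 2) := by
  unfold wt
  change sgn k x * (if true = true then -1 else 1) / 2 ^ (k + 1) = _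
  rw [pow_succ]
  simp
  ring

/-- one more direction -/
def ext (k s : ℕ) {β : Type} (R : Cube k → (Fin d → β) → Prop) (m : Cube (k + 1)) :
    (Fin d → Fin s ⊕ β) → Prop := glue (fun _ => m.2 = true) (R m.1)

lemma cubeOf_ext (hd : 1 ≤ d) {k s : ℕ} (hs : 1 ≤ s) {β : Type}
    {R : Cube k → (Fin d → β) → Prop} (h : CubeOf k R) : CubeOf (k + 1) (ext k s R) := by
  classical
  rintro ⟨x, a⟩ ⟨y, b⟩ hxy
  rcases hxy with ⟨hxy, hab⟩ | ⟨hxy, ha, hb⟩
  · change a = b at hab
    subst hab
    obtain ⟨γ, hγ, h1, h2⟩ := h x y hxy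
    refine ⟨γ.map ⟨Sum.inr, Sum.inr_injective⟩, hγ.map, ?_, ?_⟩
    · intro c hc
      have h3 : ∀ t, ∃ z ∈ γ, Sum.inr z = c t := fun t => by
        have := hc t
        rw [Finset.mem_map] at this
        exact this
      choose e he hec using h3
      have : c = fun t => Sum.inr (e t) := funext fun t => (hec t).symm
      rw [this]
      intro h4
      exact h1 e he ((glue_inr hd _ _ e).1 h4)
    · intro c
      constructor
      · rintro (⟨e, rfl, hP⟩ | ⟨e, rfl, hR⟩)
        · exact Or.inl (Or.inl ⟨e, rfl, hP⟩)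
        · rcases (h2 e).1 hR with h4 | h4
          · exact Or.inl (Or.inr ⟨e, rfl, h4⟩)
          · exact Or.inr fun t => Finset.mem_map.2 ⟨e t, h4 t, rfl⟩
      · rintro ((⟨e, rfl, hP⟩ | ⟨e, rfl, hR⟩) | hc)
        · exact Or.inl ⟨e, rfl, hP⟩
        · exact Or.inr ⟨e, rfl, (h2 e).2 (Or.inl hR)⟩
        · have h3 : ∀ t, ∃ z ∈ γ, Sum.inr z = c t := fun t => by
            have := hc t
            rw [Finset.mem_map] at this
            exact this
          choose e he hec using h3
          exact Or.inr ⟨e, funext fun t => (hec t).symm, (h2 e).2 (Or.inr he)⟩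
  · change x = y at hxy
    change a = false at ha
    change b = true at hb
    subst hxy ha hb
    refine ⟨univ.map ⟨Sum.inl, Sum.inl_injective⟩, ⟨Sum.inl ⟨0, hs⟩, mem_map_of_mem _ (mem_univ _)⟩,
      ?_, ?_⟩
    · intro c hc
      have h3 : ∀ t, ∃ z : Fin s, Sum.inl z = c t := fun t => by
        have := hc t
        rw [Finset.mem_map] at this
        obtain ⟨z, -, hz⟩ := this
        exact ⟨z, hz⟩
      choose e hec using h3
      have : c = fun t => Sum.inl (e t) := funext fun t => (hec t).symm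
      rw [this]
      intro h4
      have h5 := (glue_inl hd _ _ e).1 h4
      exact absurd h5 (by simp)
    · intro c
      constructor
      · rintro (⟨e, rfl, hP⟩ | ⟨e, rfl, hR⟩)
        · exact Or.inr fun t => Finset.mem_map.2 ⟨e t, mem_univ _, rfl⟩
        · exact Or.inl (Or.inr ⟨e, rfl, hR⟩)
      · rintro ((⟨e, rfl, hP⟩ | ⟨e, rfl, hR⟩) | hc)
        · exact absurd hP (by simp)
        · exact Or.inr ⟨e, rfl, hR⟩
        · have h3 : ∀ t, ∃ z : Fin s, Sum.inl z = c t := fun t => by
            have := hc t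
            rw [Finset.mem_map] at this
            obtain ⟨z, -, hz⟩ := this
            exact ⟨z, hz⟩
          choose e hec using h3
          exact Or.inl ⟨e, funext fun t => (hec t).symm, rfl⟩

lemma quad_ext (S : PKer d) (hd : 1 ≤ d) (k s : ℕ) (β : Type) [Fintype β]
    (R : Cube k → (Fin d → β) → Prop) :
    S.quad (Fin s ⊕ β) (Cube (k + 1)) (wt (k + 1)) (ext k s R)
      = (S.quad β (Cube k) (wt k) R
        - (S.comp β (Cube k) (wt k) R).K (Fin s) (fun _ => False) (fun _ => True)) / 2 := by
  set T := S.comp β (Cube k) (wt k) R with hT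
  have hv : T.v = S.quad β (Cube k) (wt k) R := S.comp_v hd _ _ _ _
  have hK : ∀ a b : Bool, T.K (Fin s) (fun _ => a = true) (fun _ => b = true)
      = ∑ x, ∑ y, wt k x * wt k y * S.K (Fin s ⊕ β) (ext k s R (x, a)) (ext k s R (y, b)) :=
    fun a b => rfl
  have h1 : S.quad (Fin s ⊕ β) (Cube (k + 1)) (wt (k + 1)) (ext k s R)
      = (T.K (Fin s) (fun _ => false = true) (fun _ => false = true)
        - T.K (Fin s) (fun _ => false = true) (fun _ => true = true)
        - T.K (Fin s) (fun _ => true = true) (fun _ => false = true)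
        + T.K (Fin s) (fun _ => true = true) (fun _ => true = true)) / 4 := by
    rw [hK, hK, hK, hK]
    unfold PKer.quad
    have e1 : ∀ x : Cube k, ∀ a : Bool, ∀ y : Cube k,
        wt (k + 1) (x, a) * wt (k + 1) (y, false)
            * S.K (Fin s ⊕ β) (ext k s R (x, a)) (ext k s R (y, false))
          + wt (k + 1) (x, a) * wt (k + 1) (y, true)
            * S.K (Fin s ⊕ β) (ext k s R (x, a)) (ext k s R (y, true))
        = wt (k + 1) (x, a) * (wt k y / 2)
          * (S.K (Fin s ⊕ β) (ext k s R (x, a)) (ext k s R (y, false))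
            - S.K (Fin s ⊕ β) (ext k s R (x, a)) (ext k s R (y, true))) := by
      intro x a y
      rw [wt_false, wt_true]
      ring
    have e2 : ∀ (m : Cube (k + 1)),
        ∑ m' : Cube (k + 1), wt (k + 1) m * wt (k + 1) m'
            * S.K (Fin s ⊕ β) (ext k s R m) (ext k s R m')
        = ∑ y : Cube k, (wt (k + 1) m * wt (k + 1) (y, false)
            * S.K (Fin s ⊕ β) (ext k s R m) (ext k s R (y, false))
          + wt (k + 1) m * wt (k + 1) (y, true)
            * S.K (Fin s ⊕ β) (ext k s R m) (ext k s R (y, true))) := fun m => sum_cube k _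
    rw [sum_cube, ← sum_sub_distrib, ← sum_sub_distrib, ← sum_add_distrib, sum_div]
    refine sum_congr rfl fun x _ => ?_
    rw [e2, e2, ← sum_add_distrib, ← sum_sub_distrib, ← sum_sub_distrib, ← sum_add_distrib,
      sum_div]
    refine sum_congr rfl fun y _ => ?_
    rw [e1, e1, wt_false, wt_true]
    ring
  have h2 : T.K (Fin s) (fun _ => false = true) (fun _ => false = true) = T.v :=
    T.same _ hd _ _ fun _ => Iff.rfl
  have h3 : T.K (Fin s) (fun _ => true = true) (fun _ => true = true) = T.v :=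
    T.same _ hd _ _ fun _ => Iff.rfl
  have h4 : T.K (Fin s) (fun _ => false = true) (fun _ => true = true)
      = T.K (Fin s) (fun _ => False) (fun _ => True) :=
    T.congr (fun _ => by simp) (fun _ => by simp)
  rw [h1, T.symm (Fin s) (fun _ => true = true) (fun _ => false = true), h2, h3, h4, hv]
  ring

/-- **Cubes of patterns with small alternating sums.** -/
theorem exists_cube (S : PKer d) (hd : 1 ≤ d)
    (h0 : ∀ s : ℕ, 1 ≤ s → S.K (Fin s) (fun _ => False) (fun _ => True) = 0) (n : ℕ) :
    ∀ ε : ℝ, 0 < ε → ∃ (β : Type) (_ : Fintype β) (R : Cube (n + 1) → (Fin d → β) → Prop),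
      CubeOf (n + 1) R ∧
      S.quad β (Cube (n + 1)) (wt (n + 1)) R ≤ (1 - (1 / 2) ^ d) ^ n * S.v / 2 + ε := by
  induction n with
  | zero =>
    intro ε hε
    refine ⟨Fin 1 ⊕ Empty, inferInstance, ext 0 1 (fun _ _ => False), ?_, ?_⟩
    · refine cubeOf_ext hd le_rfl ?_
      intro x y hxy
      exact hxy.elim
    · rw [quad_ext S hd]
      have e1 : S.quad Empty (Cube 0) (wt 0) (fun _ _ => False) = S.v := by
        unfold PKer.quad
        have : ∀ f : Cube 0 → ℝ, ∑ x : Cube 0, f x = f () := by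
          intro f
          have h : ∑ x : Cube 0, f x = ∑ x : Unit, f x := rfl
          rw [h]
          simp
        rw [this, this]
        have e2 : wt 0 () = 1 := by simp [wt, sgn]
        rw [e2, S.same Empty hd _ _ fun _ => Iff.rfl]
        ring
      have e2 : (S.comp Empty (Cube 0) (wt 0) (fun _ _ => False)).K (Fin 1) (fun _ => False)
          (fun _ => True) = 0 := by
        rw [PKer.comp_K]
        refine sum_eq_zero fun x _ => sum_eq_zero fun y _ => ?_
        rw [S.loc (ι' := Fin 1) ⟨Sum.inl, Sum.inl_injective⟩]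
        · have e3 : S.K (Fin 1)
              (fun c => glue (fun _ => False) (fun _ : Fin d → Empty => False)
                (fun t => (⟨Sum.inl, Sum.inl_injective⟩ : Fin 1 ↪ Fin 1 ⊕ Empty) (c t)))
              (fun c => glue (fun _ => True) (fun _ : Fin d → Empty => False)
                (fun t => (⟨Sum.inl, Sum.inl_injective⟩ : Fin 1 ↪ Fin 1 ⊕ Empty) (c t)))
              = S.K (Fin 1) (fun _ => False) (fun _ => True) :=
            S.congr (fun c => glue_inl hd _ _ c) (fun c => glue_inl hd _ _ c)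
          rw [e3, h0 1 le_rfl, mul_zero]
        · rintro c ⟨t, ht⟩
          rcases hct : c t with z | z
          · exact (ht ⟨z, by rw [hct]; rfl⟩).elim
          · exact z.elim
      rw [e1, e2]
      simp
      exact hε.le
  | succ n ih =>
    intro ε hε
    obtain ⟨β, _, R, hR, hq⟩ := ih ε hε
    set T := S.comp β (Cube (n + 1)) (wt (n + 1)) R with hT
    have hv : T.v = S.quad β (Cube (n + 1)) (wt (n + 1)) R := S.comp_v hd _ _ _ _
    obtain ⟨s, hs, hle⟩ := T.exists_size hd (ε := (1 / 2) ^ d * ε) (by positivity)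
    refine ⟨Fin s ⊕ β, inferInstance, ext (n + 1) s R, cubeOf_ext hd hs hR, ?_⟩
    rw [quad_ext S hd, ← hT, ← hv]
    rw [← hv] at hq
    have h1 : ((1 : ℝ) / 2) ^ d ≤ 1 := pow_le_one₀ (by norm_num) (by norm_num)
    have h2 : (0 : ℝ) ≤ 1 - (1 / 2) ^ d := by linarith
    have h3 := mul_le_mul_of_nonneg_left hq h2
    have h4 : (1 - (1 / 2 : ℝ) ^ d) ^ (n + 1) = (1 - (1 / 2) ^ d) ^ n * (1 - (1 / 2) ^ d) :=
      pow_succ _ _
    have h5 : (0 : ℝ) < (1 / 2) ^ d * ε := by positivity
    rw [h4]
    nlinarith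

end Pool.Agent.H56.HJ
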