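import Mathlib
import Pool.Agent.H56.HJ.Step
import Pool.Graph.R_seed8.TH7.DH.Fin

set_option autoImplicit false

/-!
# Families without cubes: the bound for the density
-/

namespace Pool.Agent.H56.HJ

open Finset Filter Topology Pool.Agent.TH7.DH

variable {d : ℕ}

/-- nonadjacency: the family contains no two overwritten sets whose patterns differ by a cube -/
def Adm (S : (N : ℕ) → Finset (Finset (Fin d → Fin N))) : Prop :=
  ∀ (N : ℕ) (ι : Type) [Fintype ι] (φ : ι ↪ Fin N) (A : Finset (Fin d → Fin N))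
    (P : (Fin d → ι) → Prop) (γ : Finset ι), γ.Nonempty →
    (∀ c : Fin d → ι, (∀ t, c t ∈ γ) → ¬ P c) →
    ¬ (ow φ P A ∈ S N ∧ ow φ (fun c => P c ∨ ∀ t, c t ∈ γ) A ∈ S N)

/-- the system of the indicator functions -/
noncomputable def sysOf (V : Ultrafilter ℕ) (hV : (V : Filter ℕ) ≤ atTop)
    (S : (N : ℕ) → Finset (Finset (Fin d → Fin N))) : Sys d where
  V := V
  hV := hV
  h₁ := fun N A => ind (S N) A
  h₂ := fun N A => ind (S N) A
  b₁ := fun N A => ind_abs (S N) A
  b₂ := fun N A => ind_abs (S N) A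

open Classical in
lemma KN_sq {N : ℕ} (h : Finset (Fin d → Fin N) → ℝ) (ι : Type) [Fintype ι]
    (X : Type) [Fintype X] (c : X → ℝ) (P : X → (Fin d → ι) → Prop) :
    ∑ x, ∑ y, c x * c y * KN N h h ι (P x) (P y)
      = av (fun φ : ι ↪ Fin N => av (fun A : Finset (Fin d → Fin N) =>
        (∑ x, c x * h (ow φ (P x) A)) ^ 2)) := by
  have e1 : ∀ (φ : ι ↪ Fin N) (A : Finset (Fin d → Fin N)),
      (∑ x, c x * h (ow φ (P x) A)) ^ 2
      = ∑ x, ∑ y, c x * c y * (h (ow φ (P x) A) * h (ow φ (P y) A)) := by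
    intro φ A
    rw [sq, sum_mul_sum]
    refine sum_congr rfl fun x _ => sum_congr rfl fun y _ => ?_
    ring
  simp only [e1, av_sum, av_smul]
  refine sum_congr rfl fun x _ => sum_congr rfl fun y _ => ?_
  congr 1

lemma av_lin {X : Type} [Fintype X] [Nonempty X] (c a b : ℝ) (F G : X → ℝ) :
    av (fun x => c + (a * F x + b * G x)) = c + (a * av F + b * av G) := by
  have h1 := av_add (fun _ : X => c) (fun x => a * F x + b * G x)
  have h2 := av_add (fun x => a * F x) (fun x => b * G x)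
  rw [av_const] at h1
  rw [av_smul, av_smul] at h2
  rw [h1, h2]

lemma av2_lin {X Y : Type} [Fintype X] [Nonempty X] [Fintype Y] [Nonempty Y] (c a b : ℝ)
    (F G : X → Y → ℝ) :
    av (fun x => av (fun y => c + (a * F x y + b * G x y)))
      = c + (a * av (fun x => av (fun y => F x y)) + b * av (fun x => av (fun y => G x y))) := by
  have h : ∀ x, av (fun y => c + (a * F x y + b * G x y))
      = c + (a * av (fun y => F x y) + b * av (fun y => G x y)) := fun x => av_lin c a b _ _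
  simp only [h]
  exact av_lin c a b _ _

/-- the kernel of the indicator functions -/
noncomputable def ker (T : Sys d) (hT : T.h₁ = T.h₂) : PKer d where
  K := fun ι _ P Q => T.K ι P Q
  B := 1
  bdd := fun ι _ P Q => T.K_abs ι P Q
  symm := by
    intro ι _ P Q
    unfold Sys.K
    congr 1
    funext N
    rw [hT]
    unfold KN
    congr 1
    funext φ
    congr 1
    funext A
    ring
  loc := fun g P Q h => T.K_loc g P Q h
  psd := by
    classical
    intro ι _ X _ c P
    have h1 : Tendsto (fun N => ∑ x, ∑ y, c x * c y * KN N (T.h₁ N) (T.h₂ N) ι (P x) (P y)) T.V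
        (𝓝 (∑ x, ∑ y, c x * c y * T.K ι (P x) (P y))) :=
      tendsto_finsetSum _ fun x _ => tendsto_finsetSum _ fun y _ =>
        (T.tendsto ι (P x) (P y)).const_mul _
    refine ge_of_tendsto' h1 fun N => ?_
    rw [← hT, KN_sq]
    exact av_nonneg fun φ => av_nonneg fun A => sq_nonneg _

section
variable (V : Ultrafilter ℕ) (hV : (V : Filter ℕ) ≤ atTop)
  (S : (N : ℕ) → Finset (Finset (Fin d → Fin N)))

/-- the kernel of a sequence of families -/
noncomputable def kerOf : PKer d := ker (sysOf V hV S) rfl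

lemma ker_zero (hadm : Adm S) (s : ℕ) (hs : 1 ≤ s) :
    (kerOf V hV S).K (Fin s) (fun _ => False) (fun _ => True) = 0 := by
  have h1 : ∀ N, KN N ((sysOf V hV S).h₁ N) ((sysOf V hV S).h₂ N) (Fin s) (fun _ => False)
      (fun _ => True) = 0 := by
    intro N
    unfold KN
    have h2 : ∀ (φ : Fin s ↪ Fin N) (A : Finset (Fin d → Fin N)),
        (sysOf V hV S).h₁ N (ow φ (fun _ => False) A) * (sysOf V hV S).h₂ N
          (ow φ (fun _ => True) A) = 0 := by
      intro φ A
      have h3 := hadm N (Fin s) φ A (fun _ => False) univ ⟨⟨0, hs⟩, mem_univ _⟩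
        (fun _ _ h => h)
      have h4 : (fun c : Fin d → Fin s => False ∨ ∀ t, c t ∈ (univ : Finset (Fin s)))
          = fun _ => True := funext fun c => by simp
      rw [h4] at h3
      change ind (S N) _ * ind (S N) _ = 0
      unfold ind
      by_cases h5 : ow φ (fun _ => False) A ∈ S N
      · have h6 : ow φ (fun _ => True) A ∉ S N := fun h6 => h3 ⟨h5, h6⟩
        rw [if_neg h6, mul_zero]
      · rw [if_neg h5, zero_mul]
    simp only [h2]
    unfold av
    simp
  change ulim _ _ = 0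
  simp only [h1]
  exact ulim_eq tendsto_const_nhds

/-- the inequality for one cube of patterns -/
lemma cube_le (hd : 1 ≤ d) (hadm : Adm S) (n : ℕ) (β : Type) [Fintype β]
    (R : Cube (n + 1) → (Fin d → β) → Prop) (hR : CubeOf (n + 1) R) :
    (kerOf V hV S).v + (1 - 4 * (kerOf V hV S).quad β (Cube (n + 1)) (wt (n + 1)) R)
      / (2 * √(2 * n + 1)) ≤ 1 / 2 := by
  classical
  set T := sysOf V hV S with hT
  set r : ℝ := 2 * √(2 * n + 1) with hr
  have hq : Tendsto (fun N => ∑ x, ∑ y, wt (n + 1) x * wt (n + 1) y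
      * KN N (T.h₁ N) (T.h₂ N) β (R x) (R y)) V
      (𝓝 ((kerOf V hV S).quad β (Cube (n + 1)) (wt (n + 1)) R)) :=
    tendsto_finsetSum _ fun x _ => tendsto_finsetSum _ fun y _ =>
      (T.tendsto β (R x) (R y)).const_mul _
  have hv : Tendsto (fun N => (∑ x, KN N (T.h₁ N) (T.h₂ N) β (R x) (R x)) / 2 ^ (n + 1)) V
      (𝓝 ((kerOf V hV S).v)) := by
    have h1 : Tendsto (fun N => (∑ x, KN N (T.h₁ N) (T.h₂ N) β (R x) (R x)) / 2 ^ (n + 1)) V
        (𝓝 ((∑ x : Cube (n + 1), T.K β (R x) (R x)) / 2 ^ (n + 1))) :=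
      (tendsto_finsetSum _ fun x _ => T.tendsto β (R x) (R x)).div_const _
    have h2 : ∀ x, T.K β (R x) (R x) = (kerOf V hV S).v := fun x =>
      T.K_same β hd _ _ fun _ => Iff.rfl
    simp only [h2] at h1
    rw [sum_const, card_univ, card_cube, nsmul_eq_mul] at h1
    have h3 : ((2 ^ (n + 1) : ℕ) : ℝ) * (kerOf V hV S).v / 2 ^ (n + 1) = (kerOf V hV S).v := by
      push_cast
      field_simp
    rwa [h3] at h1
  have hlim : Tendsto (fun N => (∑ x, KN N (T.h₁ N) (T.h₂ N) β (R x) (R x)) / 2 ^ (n + 1)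
      + (1 - 4 * (∑ x, ∑ y, wt (n + 1) x * wt (n + 1) y
      * KN N (T.h₁ N) (T.h₂ N) β (R x) (R y))) / r) V
      (𝓝 ((kerOf V hV S).v + (1 - 4 * (kerOf V hV S).quad β (Cube (n + 1)) (wt (n + 1)) R)
      / r)) := hv.add ((tendsto_const_nhds.sub (hq.const_mul 4)).div_const _)
  refine le_of_tendsto hlim ?_
  have hev : ∀ᶠ N in (V : Filter ℕ), Fintype.card β ≤ N := hV (eventually_ge_atTop _)
  filter_upwards [hev] with N hN
  have hne : Nonempty (β ↪ Fin N) := by
    rw [Function.Embedding.nonempty_iff_card_le, Fintype.card_fin]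
    exact hN
  have e0 : T.h₁ N = fun A => ind (S N) A := rfl
  have e1 : T.h₂ N = fun A => ind (S N) A := rfl
  rw [e0, e1, KN_sq]
  have e2 : ∀ x, KN N (fun A => ind (S N) A) (fun A => ind (S N) A) β (R x) (R x)
      = av (fun φ : β ↪ Fin N => av (fun A : Finset (Fin d → Fin N) =>
        ind (S N) (ow φ (R x) A))) := by
    intro x
    have e3 : ∀ (φ : β ↪ Fin N) (A : Finset (Fin d → Fin N)),
        (fun A => ind (S N) A) (ow φ (R x) A) * (fun A => ind (S N) A) (ow φ (R x) A)
          = ind (S N) (ow φ (R x) A) := fun φ A => ind_mul_self _ _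
    unfold KN
    simp only [e3]
  simp only [e2]
  rw [← av_sum]
  simp only [← av_sum]
  -- pointwise
  have hpt : ∀ (φ : β ↪ Fin N) (A : Finset (Fin d → Fin N)),
      0 ≤ 1 / 2 - 1 / r + ((-(1 / 2 ^ (n + 1))) * (∑ x, ind (S N) (ow φ (R x) A))
        + 4 / r * (∑ x, wt (n + 1) x * ind (S N) (ow φ (R x) A)) ^ 2) := by
    intro φ A
    have h1 := iso n (fun x => ind (S N) (ow φ (R x) A))
      (fun x => by
        unfold ind
        split_ifs <;> simp)
      (fun x y hxy => by
        obtain ⟨γ, hγ, h2, h3⟩ := hR x y hxy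
        have h4 := hadm N β φ A (R x) γ hγ h2
        have h5 : (fun c => R x c ∨ ∀ t, c t ∈ γ) = R y := funext fun c => propext (h3 c).symm
        rw [h5] at h4
        change ind _ _ = 0 ∨ ind _ _ = 0
        unfold ind
        by_cases h6 : ow φ (R x) A ∈ S N
        · right
          exact if_neg fun h7 => h4 ⟨h6, h7⟩
        · left
          exact if_neg h6)
    have h6 : mA (n + 1) (fun x => ind (S N) (ow φ (R x) A))
        = (∑ x, ind (S N) (ow φ (R x) A)) / 2 ^ (n + 1) := rfl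
    have h7 : mB (n + 1) (fun x => ind (S N) (ow φ (R x) A))
        = ∑ x, wt (n + 1) x * ind (S N) (ow φ (R x) A) := by
      unfold mB wt
      rw [sum_div]
      refine sum_congr rfl fun x _ => ?_
      ring
    rw [h6, h7, ← hr] at h1
    have h8 : (1 - 4 * (∑ x, wt (n + 1) x * ind (S N) (ow φ (R x) A)) ^ 2) / r
        = 1 / r - 4 / r * (∑ x, wt (n + 1) x * ind (S N) (ow φ (R x) A)) ^ 2 := by ring
    rw [h8] at h1
    have h9 : (∑ x, ind (S N) (ow φ (R x) A)) / 2 ^ (n + 1)
        = 1 / 2 ^ (n + 1) * (∑ x, ind (S N) (ow φ (R x) A)) := by ring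
    rw [h9] at h1
    linarith
  have h10 : 0 ≤ av (fun φ : β ↪ Fin N => av (fun A : Finset (Fin d → Fin N) =>
      1 / 2 - 1 / r + ((-(1 / 2 ^ (n + 1))) * (∑ x, ind (S N) (ow φ (R x) A))
        + 4 / r * (∑ x, wt (n + 1) x * ind (S N) (ow φ (R x) A)) ^ 2))) :=
    av_nonneg fun φ => av_nonneg fun A => hpt φ A
  rw [av2_lin] at h10
  have h12 : ∀ u w : ℝ, u / 2 ^ (n + 1) + (1 - 4 * w) / r
      = 1 / r + 1 / 2 ^ (n + 1) * u - 4 / r * w := fun u w => by ring
  rw [h12]
  linarith

/-- **The bound.** -/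
theorem bound (hd : 1 ≤ d) (hadm : Adm S) (n : ℕ) :
    (kerOf V hV S).v + (1 - 2 * (1 - (1 / 2) ^ d) ^ n * (kerOf V hV S).v)
      / (2 * √(2 * n + 1)) ≤ 1 / 2 := by
  set v := (kerOf V hV S).v with hv
  have hs : 1 ≤ √(2 * (n : ℝ) + 1) := by
    rw [Real.one_le_sqrt]
    have : (0 : ℝ) ≤ n := Nat.cast_nonneg n
    linarith
  set r : ℝ := √(2 * (n : ℝ) + 1) with hr
  have hr0 : 0 < r := by linarith
  refine le_of_forall_pos_le_add fun ε hε => ?_
  obtain ⟨β, _, R, hR, hq⟩ := exists_cube (kerOf V hV S) hd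
    (fun s hs => ker_zero V hV S hadm s hs) n (ε / 2) (by positivity)
  have h1 := cube_le V hV S hd hadm n β R hR
  rw [← hv, ← hr] at h1
  rw [← hv] at hq
  have h2 : (1 - 2 * (1 - (1 / 2 : ℝ) ^ d) ^ n * v) / (2 * r)
      ≤ (1 - 4 * (kerOf V hV S).quad β (Cube (n + 1)) (wt (n + 1)) R) / (2 * r) + ε := by
    rw [div_add' _ _ _ (by positivity), div_le_div_iff_of_pos_right (by positivity)]
    nlinarith
  linarith

end

end Pool.Agent.H56.HJ
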