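import Mathlib
import Pool.Agent.H56.HJ.Main

set_option autoImplicit false

/-!
# The restricted density polynomial Hales-Jewett statement above density `1/2 - 2^(-d/2)/5`

Plant patterns in a random set and let `f P` be the indicator of the event that the result is a
member of a family which is not good. Take `k + 1` disjoint blocks; the unions of their cubes form a
cube of patterns on which `f` is the indicator of an independent set. Such a set of density close
to one half is close to one of the two parity classes: the density is at most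
`1/2 - (1 - 4 b²) / (2 √(2 k + 1))`, `b` being the signed mean. The mean of `b²` is a value of the
positive semidefinite planted kernel, and for suitable sizes of the blocks every block multiplies it
by at most `1 - 2^(-d)`.
-/

namespace Pool.Agent.Results.MP_90b327_co.SquareRootGap

open Finset Filter Topology Pool.Agent.TH7.DH Pool.Agent.H56.HJ

/-- `cube d γ` is `γ^d`, the set of all `d`-tuples with entries in `γ`. -/
def cube {N : ℕ} (d : ℕ) (γ : Finset (Fin N)) : Finset (Fin d → Fin N) :=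
  Fintype.piFinset (fun _ : Fin d => γ)

/-- A family `S` of subsets of `[N]^d` is good if there are `A ∈ S` and a nonempty `γ ⊆ [N]` with
`A ∩ γ^d = ∅` and `A ∪ γ^d ∈ S`. -/
def Good {N d : ℕ} (S : Finset (Finset (Fin d → Fin N))) : Prop :=
  ∃ A ∈ S, ∃ γ : Finset (Fin N), γ.Nonempty ∧ Disjoint A (cube d γ) ∧ A ∪ cube d γ ∈ S

/-- The statement in dimension `d` for the density `δ`: for all large `N` every family of more than
`δ 2^(N^d)` subsets of `[N]^d` is good. -/
def Holds (d : ℕ) (δ : ℝ) : Prop :=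
  ∃ N₀ : ℕ, ∀ N : ℕ, N₀ ≤ N → ∀ S : Finset (Finset (Fin d → Fin N)),
    δ * (2 : ℝ) ^ (N ^ d) < S.card → Good S

lemma not_good_ow {N d : ℕ} {S : Finset (Finset (Fin d → Fin N))} (hS : ¬ Good S) {ι : Type}
    [Fintype ι] (φ : ι ↪ Fin N) (A : Finset (Fin d → Fin N)) (P : (Fin d → ι) → Prop)
    (γ : Finset ι) (hγ : γ.Nonempty) (hP : ∀ c : Fin d → ι, (∀ t, c t ∈ γ) → ¬ P c) :
    ¬ (ow φ P A ∈ S ∧ ow φ (fun c => P c ∨ ∀ t, c t ∈ γ) A ∈ S) := by
  classical
  rintro ⟨h0, h1⟩
  refine hS ⟨_, h0, γ.map φ, hγ.map, ?_, ?_⟩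
  · rw [Finset.disjoint_left]
    intro c hc hc'
    rw [mem_ow] at hc
    rw [cube, Fintype.mem_piFinset] at hc'
    have : ∀ t, ∃ x, x ∈ γ ∧ φ x = c t := fun t => by
      have := hc' t
      rw [Finset.mem_map] at this
      exact this
    choose e he he' using this
    rcases hc with ⟨e₁, he₁, hP₁⟩ | ⟨hne, -⟩
    · have h2 : e₁ = e := funext fun t => φ.injective ((congrFun he₁ t).trans (he' t).symm)
      rw [h2] at hP₁
      exact hP e he hP₁
    · exact hne ⟨e, funext he'⟩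
  · have h2 : ow φ P A ∪ cube d (γ.map φ) = ow φ (fun c => P c ∨ ∀ t, c t ∈ γ) A := by
      ext c
      have h3 : c ∈ cube d (γ.map φ) ↔ ∃ e : Fin d → ι, (fun t => φ (e t)) = c ∧ ∀ t, e t ∈ γ := by
        rw [cube, Fintype.mem_piFinset]
        constructor
        · intro hc
          have : ∀ t, ∃ x, x ∈ γ ∧ φ x = c t := fun t => by
            have := hc t
            rw [Finset.mem_map] at this
            exact this
          choose e he he' using this
          exact ⟨e, funext he', he⟩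
        · rintro ⟨e, rfl, he⟩ t
          exact mem_map_of_mem _ (he t)
      rw [mem_union, mem_ow, mem_ow, h3]
      by_cases hc : ∃ e : Fin d → ι, (fun t => φ (e t)) = c
      · simp only [hc, not_true, false_and, or_false]
        constructor
        · rintro (⟨e, he, h⟩ | ⟨e, he, h⟩)
          · exact ⟨e, he, Or.inl h⟩
          · exact ⟨e, he, Or.inr h⟩
        · rintro ⟨e, he, h | h⟩
          · exact Or.inl ⟨e, he, h⟩
          · exact Or.inr ⟨e, he, h⟩
      · have h4 : ∀ R : (Fin d → ι) → Prop, ¬ ∃ e : Fin d → ι, (fun t => φ (e t)) = c ∧ R e :=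
          fun R ⟨e, he, _⟩ => hc ⟨e, he⟩
        simp only [hc, h4 P, h4 (fun c => P c ∨ ∀ t, c t ∈ γ), h4 (fun e => ∀ t, e t ∈ γ),
          not_false_iff, true_and, false_or, or_false]
    rw [h2]
    exact h1

/-- from the bound for the densities of sequences of families which are not good -/
lemma holds_of (d : ℕ) (hd : 1 ≤ d) (δ : ℝ)
    (h : ∀ (V : Ultrafilter ℕ) (hV : (V : Filter ℕ) ≤ atTop)
      (S : (N : ℕ) → Finset (Finset (Fin d → Fin N))), Adm S → (kerOf V hV S).v < δ) :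
    Holds d δ := by
  classical
  by_contra hcon
  unfold Holds at hcon
  push Not at hcon
  set B : Set ℕ := {N | ∃ S : Finset (Finset (Fin d → Fin N)),
    δ * (2 : ℝ) ^ (N ^ d) < S.card ∧ ¬ Good S} with hB
  have hfreq : ∃ᶠ N in (atTop : Filter ℕ), N ∈ B := by
    rw [frequently_atTop]
    intro N₀
    obtain ⟨N, hN, S, hS, hg⟩ := hcon N₀
    exact ⟨N, hN, S, hS, hg⟩
  have hne : NeBot ((atTop : Filter ℕ) ⊓ 𝓟 B) := frequently_mem_iff_neBot.1 hfreq
  set V : Ultrafilter ℕ := Ultrafilter.of ((atTop : Filter ℕ) ⊓ 𝓟 B) with hVdef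
  have hVle : (V : Filter ℕ) ≤ (atTop : Filter ℕ) ⊓ 𝓟 B := Ultrafilter.of_le _
  have hV1 : (V : Filter ℕ) ≤ atTop := hVle.trans inf_le_left
  have hV2 : B ∈ (V : Filter ℕ) := hVle (mem_inf_of_right (mem_principal_self B))
  have hch : ∀ N : ℕ, ∃ S : Finset (Finset (Fin d → Fin N)), ¬ Good S ∧
      (N ∈ B → δ * (2 : ℝ) ^ (N ^ d) < S.card) := by
    intro N
    by_cases hN : N ∈ B
    · obtain ⟨S, hS, hg⟩ := hN
      exact ⟨S, hg, fun _ => hS⟩
    · refine ⟨∅, ?_, fun h => (hN h).elim⟩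
      rintro ⟨A, hA, -⟩
      exact absurd hA (notMem_empty _)
  choose S hSg hSd using hch
  have hadm : Adm S := fun N ι _ φ A P γ hγ hP => not_good_ow (hSg N) φ A P γ hγ hP
  have hb := h V hV1 S hadm
  refine absurd hb (not_lt.2 ?_)
  refine ge_of_tendsto ((sysOf V hV1 S).tendsto Empty (fun _ => True) (fun _ => True)) ?_
  filter_upwards [hV2] with N hN
  have h1 : KN N ((sysOf V hV1 S).h₁ N) ((sysOf V hV1 S).h₂ N) Empty (fun _ => True)
      (fun _ => True) = av (fun A => ind (S N) A) := by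
    unfold KN
    have h2 : ∀ φ : Empty ↪ Fin N, av (fun A => (sysOf V hV1 S).h₁ N (ow φ (fun _ => True) A)
        * (sysOf V hV1 S).h₂ N (ow φ (fun _ => True) A)) = av (fun A => ind (S N) A) := by
      intro φ
      congr 1
      funext A
      rw [ow_empty hd]
      exact ind_mul_self (S N) A
    simp only [h2]
    have : Nonempty (Empty ↪ Fin N) := ⟨⟨Empty.elim, fun x => x.elim⟩⟩
    rw [av_const]
  rw [h1, av_ind]
  have h3 : ((Fintype.card (Finset (Fin d → Fin N)) : ℕ) : ℝ) = 2 ^ (N ^ d) := by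
    rw [Fintype.card_finset]
    simp
  rw [h3, le_div_iff₀ (by positivity)]
  exact (hSd N hN).le

/-- **Theorem.** Let `d ≥ 1` and `q = 1 - 2^(-d)`.
(1) For every `k ≥ 1` the statement holds in dimension `d` for all densities above
`(√(2 k + 1) - 1) / (2 (√(2 k + 1) - q^k))`.
(2) So it holds for all densities above `1/2 - 2^(-d/2) / 5`. -/
theorem result : ∀ d : ℕ, 1 ≤ d →
    (∀ k : ℕ, 1 ≤ k → ∀ δ : ℝ,
      (√(2 * k + 1) - 1) / (2 * (√(2 * k + 1) - (1 - (1 / 2 : ℝ) ^ d) ^ k)) < δ → Holds d δ) ∧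
    (∀ δ : ℝ, 1 / 2 - 1 / (5 * √(2 ^ d)) < δ → Holds d δ) := by
  intro d hd
  have hq0 : (0 : ℝ) ≤ 1 - (1 / 2 : ℝ) ^ d := by
    have : ((1 : ℝ) / 2) ^ d ≤ 1 := pow_le_one₀ (by norm_num) (by norm_num)
    linarith
  have hq1 : (1 : ℝ) - (1 / 2 : ℝ) ^ d < 1 := by
    have : (0 : ℝ) < (1 / 2 : ℝ) ^ d := by positivity
    linarith
  have main : ∀ k : ℕ, 1 ≤ k → ∀ δ : ℝ,
      (√(2 * k + 1) - 1) / (2 * (√(2 * k + 1) - (1 - (1 / 2 : ℝ) ^ d) ^ k)) < δ → Holds d δ := by
    intro k hk δ hδ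
    refine holds_of d hd δ fun V hV S hadm => ?_
    have hb := bound V hV S hd hadm k
    have hs : 1 < √(2 * (k : ℝ) + 1) := by
      rw [Real.lt_sqrt (by norm_num)]
      have : (1 : ℝ) ≤ k := by exact_mod_cast hk
      linarith
    have hqk : (1 - (1 / 2 : ℝ) ^ d) ^ k ≤ 1 := pow_le_one₀ hq0 hq1.le
    set r := √(2 * (k : ℝ) + 1)
    set Q := (1 - (1 / 2 : ℝ) ^ d) ^ k
    set v := (kerOf V hV S).v
    have hr : 0 < r := by linarith
    have h1 : (1 - 2 * Q * v) / (2 * r) ≤ 1 / 2 - v := by linarith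
    rw [div_le_iff₀ (by positivity)] at h1
    refine lt_of_le_of_lt ?_ hδ
    rw [le_div_iff₀ (by linarith)]
    nlinarith
  refine ⟨main, fun δ hδ => ?_⟩
  -- the gap
  have key : ∀ k : ℕ, 1 ≤ k → ∀ c : ℝ, (1 - (1 / 2 : ℝ) ^ d) ^ k ≤ 1 - c →
      1 / (5 * √(2 ^ d)) ≤ c / (2 * √(2 * k + 1)) → Holds d δ := by
    intro k hk c hc hle
    refine main k hk δ (lt_of_le_of_lt ?_ hδ)
    have hs : 1 < √(2 * (k : ℝ) + 1) := by
      rw [Real.lt_sqrt (by norm_num)]
      have : (1 : ℝ) ≤ k := by exact_mod_cast hk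
      linarith
    have hQ0 : 0 ≤ (1 - (1 / 2 : ℝ) ^ d) ^ k := pow_nonneg hq0 _
    have hQ1 : (1 - (1 / 2 : ℝ) ^ d) ^ k ≤ 1 := pow_le_one₀ hq0 hq1.le
    set r := √(2 * (k : ℝ) + 1)
    set Q := (1 - (1 / 2 : ℝ) ^ d) ^ k
    have hr : 0 < r := by linarith
    have h1 : (r - 1) / (2 * (r - Q)) = 1 / 2 - (1 - Q) / (2 * (r - Q)) := by
      have : r - Q ≠ 0 := by linarith
      field_simp
      ring
    have h2 : c / (2 * r) ≤ (1 - Q) / (2 * (r - Q)) := by
      have h3 : c / (2 * r) ≤ (1 - Q) / (2 * r) := by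
        rw [div_le_div_iff_of_pos_right (by positivity)]
        linarith
      refine h3.trans ?_
      exact div_le_div_of_nonneg_left (by linarith) (by linarith) (by linarith)
    rw [h1]
    linarith
  rcases Nat.lt_or_ge d 2 with hd2 | hd2
  · -- `d = 1`
    obtain rfl : d = 1 := by omega
    refine key 2 (by norm_num) (3 / 4) (by norm_num) ?_
    have h2 : √(2 * ((2 : ℕ) : ℝ) + 1) ≤ 9 / 4 := by
      rw [Real.sqrt_le_left (by norm_num)]
      norm_num
    have h3 : 7 / 5 ≤ √((2 : ℝ) ^ 1) := Real.le_sqrt_of_sq_le (by norm_num)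
    have h4 : (0 : ℝ) < √(2 * ((2 : ℕ) : ℝ) + 1) := Real.sqrt_pos.2 (by norm_num)
    calc 1 / (5 * √((2 : ℝ) ^ 1)) ≤ 1 / (5 * (7 / 5)) :=
          one_div_le_one_div_of_le (by norm_num) (by linarith)
      _ ≤ 3 / 4 / (2 * (9 / 4)) := by norm_num
      _ ≤ 3 / 4 / (2 * √(2 * ((2 : ℕ) : ℝ) + 1)) :=
          div_le_div_of_nonneg_left (by norm_num) (by positivity) (by linarith)
  · -- `d ≥ 2`
    have hk1 : 1 ≤ 2 ^ d := Nat.one_le_two_pow
    refine key (2 ^ d) hk1 (1 - 37 / 100) ?_ ?_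
    · have h1 : (1 - (1 : ℝ) / ((2 ^ d : ℕ) : ℝ)) ^ (2 ^ d) ≤ Real.exp (-1) :=
        Real.one_sub_div_pow_le_exp_neg (by exact_mod_cast hk1)
      have h2 : (1 / 2 : ℝ) ^ d = 1 / ((2 ^ d : ℕ) : ℝ) := by
        push_cast
        rw [div_pow, one_pow]
      rw [h2]
      have h3 := Real.exp_neg_one_lt_d9
      linarith
    · have h4 : (4 : ℝ) ≤ 2 ^ d := by
        calc (4 : ℝ) = 2 ^ 2 := by norm_num
          _ ≤ 2 ^ d := pow_le_pow_right₀ (by norm_num) hd2
      have h5 : √(2 * ((2 ^ d : ℕ) : ℝ) + 1) ≤ 3 / 2 * √(2 ^ d) := by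
        rw [Real.sqrt_le_left (by positivity), mul_pow, Real.sq_sqrt (by positivity)]
        push_cast
        nlinarith
      have h6 : 0 < √((2 : ℝ) ^ d) := Real.sqrt_pos.2 (by positivity)
      have h7 : 0 < √(2 * ((2 ^ d : ℕ) : ℝ) + 1) := Real.sqrt_pos.2 (by positivity)
      rw [div_le_div_iff₀ (by positivity) (by positivity)]
      nlinarith

end Pool.Agent.Results.MP_90b327_co.SquareRootGap
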